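import Pool.Agent.Work.MP_6cd513_gt.Bridge

/-!
# Maximal sections of the cube for all large `n`

For every fixed `k` the conjectured bound `vol_k (Q_n ∩ H) ≤ V(n,k)` holds for all sufficiently
large `n` and all `k`-dimensional subspaces `H` of `ℝ^n`.
-/

open MeasureTheory

namespace Pool.Agent.Work.MP_6cd513_gt.OldLargeDim

open Pool.Agent.Work.MP_6cd513_gt

/-- For every `k ≥ 1` there is `n₀` such that for all `n ≥ n₀` and every `k`-dimensional linear
subspace `H` of `ℝ^n` the section `Q_n ∩ H` of the cube `Q_n = [-1/2, 1/2]^n` has `k`-dimensional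
volume at most `V(n,k) = maxVol n k`. -/
theorem result : ∀ k : ℕ, 1 ≤ k → ∃ n₀ : ℕ, ∀ n : ℕ, n₀ ≤ n →
    ∀ H : Submodule ℝ (EuclideanSpace ℝ (Fin n)), Module.finrank ℝ H = k →
      sectionVolume H (cube n) ≤ ENNReal.ofReal (maxVol n k) := by
  intro k hk
  obtain ⟨n₀, h⟩ := frames_bound hk
  exact ⟨n₀, fun n hn H hH => section_bound (h n hn) H hH⟩

end Pool.Agent.Work.MP_6cd513_gt.OldLargeDim
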